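import Pool.Agent.X238.DW.Stm2

/-! DW_EXI2: existence of the bounded solution, bounded operators on a Hilbert space. -/

set_option autoImplicit false

namespace Pool.Agent.X331.DWE

open Pool.Agent.X238.DW MeasureTheory Set Filter Topology

universe v

theorem exists_forced {W : Type v} [NormedAddCommGroup W] [NormedSpace ℝ W] [CompleteSpace W]
    (M : W →L[ℝ] W) (F : ℝ → W) (hF : Continuous F) (T1 : ℝ)
    (hFz : ∀ t, t ≤ -T1 → F t = 0) :
    ∃ U : ℝ → W, (∀ t, HasDerivAt U (M (U t) + F t) t) ∧ ∀ t, t ≤ -T1 → U t = 0 := by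
  obtain ⟨E, hEdef⟩ : ∃ E : ℝ → (W →L[ℝ] W),
      E = fun t : ℝ => NormedSpace.exp (t • M) := ⟨_, rfl⟩
  have hEd : ∀ t, HasDerivAt E (M * E t) t := by
    intro t; rw [hEdef]; exact hasDerivAt_exp_smul_const' (𝕂 := ℝ) M t
  have hEc : Continuous E := continuous_iff_continuousAt.2 fun t => (hEd t).continuousAt
  have hEE : ∀ t, E t * E (-t) = 1 := by
    intro t
    let _ : NormedAlgebra ℚ (W →L[ℝ] W) := NormedAlgebra.restrictScalars ℚ ℝ (W →L[ℝ] W)
    rw [hEdef]
    have hcomm : Commute (t • M) ((-t) • M) :=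
      ((Commute.refl M).smul_left t).smul_right (-t)
    show NormedSpace.exp (t • M) * NormedSpace.exp ((-t) • M) = 1
    rw [← NormedSpace.exp_add_of_commute hcomm]
    rw [neg_smul, add_neg_cancel, NormedSpace.exp_zero]
  have hJc : Continuous fun τ : ℝ => E (-τ) (F τ) :=
    (hEc.comp continuous_neg).clm_apply hF
  obtain ⟨J, hJdef⟩ : ∃ J : ℝ → W, J = fun t => ∫ τ in (-T1)..t, E (-τ) (F τ) :=
    ⟨_, rfl⟩
  have hJ : ∀ t, HasDerivAt J (E (-t) (F t)) t := by
    intro t
    rw [hJdef]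
    exact intervalIntegral.integral_hasDerivAt_right (hJc.intervalIntegrable _ _)
      (hJc.stronglyMeasurableAtFilter _ _) hJc.continuousAt
  refine ⟨fun t => E t (J t), fun t => ?_, fun t ht => ?_⟩
  · have h := (hEd t).clm_apply (hJ t)
    have e1 : E t (E (-t) (F t)) = F t := by
      have := congrArg (fun L : W →L[ℝ] W => L (F t)) (hEE t)
      simpa using this
    rw [e1] at h
    exact h
  · have hJ0 : J t = 0 := by
      rw [hJdef]
      show ∫ τ in (-T1)..t, E (-τ) (F τ) = 0
      rw [intervalIntegral.integral_symm]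
      have : ∫ τ in t..(-T1), E (-τ) (F τ) = 0 := by
        apply intervalIntegral.integral_zero_ae
        refine Filter.Eventually.of_forall fun τ hτ => ?_
        rw [uIoc_of_le ht] at hτ
        rw [hFz τ hτ.2]
        exact map_zero _
      rw [this, neg_zero]
    show E t (J t) = 0
    rw [hJ0, map_zero]

theorem t_EXI2 : S_EXI2.{v} := by
  intro hE V _ _ _ c b A hc hb hA f T hf hfT
  obtain ⟨T1, hT1⟩ : ∃ T1 : ℝ, T1 = |T| := ⟨_, rfl⟩
  have hT0 : 0 ≤ T1 := by rw [hT1]; exact abs_nonneg T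
  have hfz : ∀ t, T1 ≤ |t| → f t = 0 := fun t ht =>
    hfT t (le_trans (by rw [hT1]; exact le_abs_self T) ht)
  -- the group
  let M : (V × V) →L[ℝ] (V × V) :=
    ContinuousLinearMap.prod (ContinuousLinearMap.snd ℝ V V)
      (-(c • ContinuousLinearMap.snd ℝ V V) - A.comp (ContinuousLinearMap.fst ℝ V V))
  have hM : ∀ z : V × V, M z = (z.2, -(c • z.2) - A z.1) := fun z => rfl
  obtain ⟨U, hU, hU0⟩ := exists_forced M (fun t => ((0 : V), f t))
    (continuous_const.prodMk hf) T1 (fun t ht => by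
      have h0 : f t = 0 := by
        apply hfz
        rw [abs_of_nonpos (by linarith)]
        linarith
      show ((0 : V), f t) = 0
      rw [h0]; rfl)
  have hu : ∀ t, HasDerivAt (fun t => (U t).1) ((U t).2) t := by
    intro t
    have h := (ContinuousLinearMap.fst ℝ V V).hasFDerivAt.comp_hasDerivAt t (hU t)
    have e : (ContinuousLinearMap.fst ℝ V V) (M (U t) + ((0 : V), f t)) = (U t).2 := by
      rw [hM]; simp
    rw [e] at h
    exact h
  have hw : ∀ t, HasDerivAt (fun t => (U t).2) (f t - c • (U t).2 - A (U t).1) t := by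
    intro t
    have h := (ContinuousLinearMap.snd ℝ V V).hasFDerivAt.comp_hasDerivAt t (hU t)
    have e : (ContinuousLinearMap.snd ℝ V V) (M (U t) + ((0 : V), f t)) =
        f t - c • (U t).2 - A (U t).1 := by
      rw [hM]
      show -(c • (U t).2) - A (U t).1 + f t = _
      abel
    rw [e] at h
    exact h
  -- the bound
  obtain ⟨γ0, hγ0, hE1⟩ := hE c c b hc le_rfl hb
  obtain ⟨C, hC, hE2⟩ := hE1 γ0 hγ0 le_rfl
  obtain ⟨B, hB⟩ := (isCompact_Icc (a := -T1) (b := T1)).exists_bound_of_continuousOn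
    hf.continuousOn
  have hB0 : 0 ≤ B := le_trans (norm_nonneg _) (hB (-T1) ⟨le_rfl, by linarith⟩)
  obtain ⟨m, hm⟩ : ∃ m, m = B * Real.exp (γ0 * (2 * T1)) := ⟨_, rfl⟩
  have hm0 : 0 ≤ m := by rw [hm]; positivity
  have key := hE2 V A hA c ⟨le_rfl, le_rfl⟩ (fun s => (U (s - T1)).1) (fun s => (U (s - T1)).2)
    (fun s => f (s - T1)) m hm0
    (fun s _ => by
      have := (hu (s - T1)).comp_sub_const s T1
      exact this)
    (fun s _ => by
      have := (hw (s - T1)).comp_sub_const s T1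
      have e : f (s - T1) - c • (U (s - T1)).2 - A (U (s - T1)).1 =
        -(c • (U (s - T1)).2) - A (U (s - T1)).1 + f (s - T1) := by abel
      rw [e] at this
      exact this)
    (by
      show (U (0 - T1)).1 = 0
      rw [hU0 _ (by linarith)]; rfl)
    (fun s hs => by
      show ‖f (s - T1)‖ ≤ m * Real.exp (-(γ0 * s))
      by_cases h : s ≤ 2 * T1
      · have h1 : ‖f (s - T1)‖ ≤ B := hB _ ⟨by linarith, by linarith⟩
        have h2 : (1 : ℝ) ≤ Real.exp (γ0 * (2 * T1)) * Real.exp (-(γ0 * s)) := by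
          rw [← Real.exp_add]
          apply Real.one_le_exp
          nlinarith
        calc ‖f (s - T1)‖ ≤ B := h1
          _ = B * 1 := (mul_one B).symm
          _ ≤ B * (Real.exp (γ0 * (2 * T1)) * Real.exp (-(γ0 * s))) :=
              mul_le_mul_of_nonneg_left h2 hB0
          _ = m * Real.exp (-(γ0 * s)) := by rw [hm]; ring
      · have h0 : f (s - T1) = 0 := by
          apply hfz
          rw [abs_of_nonneg (by linarith)]
          linarith
        rw [h0, norm_zero]
        positivity)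
  have hR0 : ‖(U (0 - T1)).2‖ = 0 := by
    rw [hU0 _ (by linarith)]; simp
  have hCm : 0 ≤ C * m := mul_nonneg hC hm0
  refine ⟨fun t => (U t).1, fun t => (U t).2, C * m, hu, hw, fun t => ?_⟩
  by_cases ht : t ≤ -T1
  · show ‖(U t).1‖ ≤ C * m ∧ ‖(U t).2‖ ≤ C * m
    rw [hU0 t ht]
    simpa using hCm
  · have hs : 0 ≤ t + T1 := by linarith
    obtain ⟨k1, k2⟩ := key (t + T1) hs
    have e : t + T1 - T1 = t := by ring
    rw [e] at k1 k2
    have hexp : Real.exp (-(γ0 / 2 * (t + T1))) ≤ 1 := by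
      apply Real.exp_le_one_iff.2
      have : 0 ≤ γ0 / 2 * (t + T1) := by positivity
      linarith
    have hbd : C * (‖(U (0 - T1)).2‖ + m) * Real.exp (-(γ0 / 2 * (t + T1))) ≤ C * m := by
      rw [hR0, zero_add]
      calc C * m * Real.exp (-(γ0 / 2 * (t + T1))) ≤ C * m * 1 :=
            mul_le_mul_of_nonneg_left hexp hCm
        _ = C * m := mul_one _
    exact ⟨k1.trans hbd, k2.trans hbd⟩

end Pool.Agent.X331.DWE
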